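import Mathlib
import Pool.Agent.H715R2.Embed

/-! # Fibres of evaluation of the embeddings of a number field -/

open NumberField

namespace Pool.Agent.TH223.E

set_option linter.unusedSectionVars false

variable {K : Type*} [Field K] [NumberField K]

open IntermediateField in
open scoped Classical in
/-- all the fibres of `σ ↦ σ z` have the same cardinality, which divides the degree -/
theorem fiber_card (z : K) : ∃ m : ℕ, m ∣ Module.finrank ℚ K ∧ ∀ σ : K →+* ℂ,
    (Finset.univ.filter fun σ' : K →+* ℂ => σ' z = σ z).card = m := by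
  set E := ℚ⟮z⟯ with hE
  refine ⟨Module.finrank E K, ⟨Module.finrank ℚ E, ?_⟩, fun σ => ?_⟩
  · rw [mul_comm]; exact (Module.finrank_mul_finrank ℚ E K).symm
  · set ψ : E →+* ℂ := σ.comp (algebraMap E K) with hψ
    letI : Algebra E ℂ := ψ.toAlgebra
    have hcard : Fintype.card (K →ₐ[E] ℂ) = Module.finrank E K := AlgHom.card E K ℂ
    rw [← hcard, ← Fintype.card_coe]
    refine Fintype.card_congr ?_
    have hext : ∀ σ' : K →+* ℂ, σ' z = σ z → ∀ e : E, σ' (algebraMap E K e) = ψ e := by
      intro σ' h e
      have h1 : E ≤ H715R2.eqF σ' σ := by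
        rw [hE, IntermediateField.adjoin_simple_le_iff]
        exact h
      exact h1 e.2
    exact
      { toFun := fun σ' =>
          { σ'.1 with
            commutes' := fun e => hext σ'.1 (Finset.mem_filter.1 σ'.2).2 e }
        invFun := fun f => ⟨f.toRingHom, by
          rw [Finset.mem_filter]
          refine ⟨Finset.mem_univ _, ?_⟩
          have h1 := f.commutes (AdjoinSimple.gen ℚ z)
          have h2 : algebraMap E K (AdjoinSimple.gen ℚ z) = z := AdjoinSimple.algebraMap_gen ℚ z
          rw [h2] at h1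
          show f z = σ z
          rw [h1]
          show ψ (AdjoinSimple.gen ℚ z) = σ z
          rw [hψ]
          show σ (algebraMap E K (AdjoinSimple.gen ℚ z)) = σ z
          rw [h2]⟩
        left_inv := fun σ' => rfl
        right_inv := fun f => rfl }

open scoped Classical in
/-- if the number of elements of `S` is coprime to the degree, then `S` is not a union of fibres of
`σ ↦ σ z`, unless these are trivial -/
theorem sep_of_coprime (S : Finset (K →+* ℂ)) (hS : Nat.Coprime S.card (Module.finrank ℚ K))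
    (τ τ' : K →+* ℂ) (hne : τ ≠ τ') (z : K) (hz : τ z = τ' z) :
    ∃ σ ∈ S, ∃ σ', σ' ∉ S ∧ σ z = σ' z := by
  by_contra hcon
  push Not at hcon
  obtain ⟨m, hm, hfib⟩ := fiber_card z
  have hdvd : m ∣ S.card := by
    rw [Finset.card_eq_sum_card_image (fun σ : K →+* ℂ => σ z) S]
    refine Finset.dvd_sum fun y hy => ?_
    obtain ⟨σ, hσ, rfl⟩ := Finset.mem_image.1 hy
    rw [← hfib σ]
    refine dvd_of_eq (congrArg Finset.card ?_)
    ext σ'
    simp only [Finset.mem_filter, Finset.mem_univ, true_and]
    constructor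
    · intro h
      refine ⟨?_, h⟩
      by_contra h2
      exact hcon σ hσ σ' h2 h.symm
    · exact fun h => h.2
  have h1 : m = 1 := Nat.dvd_one.1 (hS ▸ Nat.dvd_gcd hdvd hm)
  have h2 := hfib τ
  rw [h1, Finset.card_eq_one] at h2
  obtain ⟨ρ, hρ⟩ := h2
  have h3 : τ ∈ ({ρ} : Finset (K →+* ℂ)) := by
    rw [← hρ, Finset.mem_filter]; exact ⟨Finset.mem_univ _, rfl⟩
  have h4 : τ' ∈ ({ρ} : Finset (K →+* ℂ)) := by
    rw [← hρ, Finset.mem_filter]; exact ⟨Finset.mem_univ _, hz.symm⟩
  rw [Finset.mem_singleton] at h3 h4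
  exact hne (h3.trans h4.symm)

end Pool.Agent.TH223.E
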