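import Mathlib
import Pool.Agent.H715R2.Isolation
import Pool.Agent.H715R2.LimitAlg
import Pool.Agent.H715R2.MinimalSet

/-! # Products of linear forms with a coordinate subspace invariant under a number field -/

open NumberField Filter Topology Matrix

namespace Pool.Agent.TH223.E

open H715R2

set_option linter.unusedSectionVars false

variable {K : Type*} [Field K] [NumberField K] {d : ℕ}

/-- the data: a number field with a basis, an invertible real matrix `h = H · (τ(b_j))`, whose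
rows in `I` are supported at the set `S` of embeddings, of the same cardinality -/
structure SDat (K : Type*) [Field K] [NumberField K] (d : ℕ) where
  b : Module.Basis (Fin d) ℚ K
  N : ℕ
  hN : 0 < N
  hNe : Even N
  act : ∀ u : (𝓞 K)ˣ, ∀ x : Fin d → ℤ, ∃ y : Fin d → ℤ,
      ∑ j, (y j : ℚ) • b j = (((u ^ N : (𝓞 K)ˣ) : 𝓞 K) : K) * ∑ j, (x j : ℚ) • b j
  h : Matrix (Fin d) (Fin d) ℝ
  hh : h.det ≠ 0
  H : Fin d → (K →+* ℂ) → ℂ
  hH : ∀ i j, (h i j : ℂ) = ∑ τ : K →+* ℂ, H i τ * τ (b j)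
  I : Finset (Fin d)
  S : Finset (K →+* ℂ)
  hI : I.Nonempty
  hI' : I.card < d
  hIS : I.card = S.card
  hSI : ∀ i ∈ I, ∀ τ, τ ∉ S → H i τ = 0
  hSc : ∀ τ ∈ S, ComplexEmbedding.conjugate τ ∈ S
  hsep : ∀ τ τ' : K →+* ℂ, τ ≠ τ' → τ ∈ S → τ' ∈ S → ∀ z : K, τ z = τ' z →
      ∃ σ ∈ S, ∃ σ', σ' ∉ S ∧ σ z = σ' z

namespace SDat

variable (D : SDat K d)

lemma hSc' (τ : K →+* ℂ) : ComplexEmbedding.conjugate τ ∈ D.S ↔ τ ∈ D.S := by
  refine ⟨fun h => ?_, D.hSc τ⟩
  have h2 : ComplexEmbedding.conjugate (ComplexEmbedding.conjugate τ) = τ := star_involutive τ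
  rw [← h2]
  exact D.hSc _ h

include D in
lemma card_emb : Fintype.card (K →+* ℂ) = d := by
  rw [NumberField.Embeddings.card K ℂ, Module.finrank_eq_card_basis D.b, Fintype.card_fin]

/-- the number of embeddings in `S` -/
noncomputable def k : ℝ := (D.S.card : ℝ)

/-- the number of the other embeddings -/
noncomputable def k' : ℝ := (d : ℝ) - (D.S.card : ℝ)

lemma k_pos : 0 < D.k := by
  have h := Finset.card_pos.2 D.hI
  rw [D.hIS] at h
  unfold k
  exact_mod_cast h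

lemma k'_pos : 0 < D.k' := by
  have h := D.hI'
  rw [D.hIS] at h
  rw [k', sub_pos]
  exact_mod_cast h

lemma k_add : D.k + D.k' = d := by rw [k, k']; ring

lemma one_le_k : 1 ≤ D.k := by
  have h := Finset.card_pos.2 D.hI
  rw [D.hIS] at h
  unfold k
  exact_mod_cast h

lemma one_le_k' : 1 ≤ D.k' := by
  have h := D.hI'
  rw [D.hIS] at h
  have h2 : (D.S.card : ℝ) + 1 ≤ d := by exact_mod_cast h
  rw [k']; linarith

open scoped Classical in
/-- the logarithm of the absolute value of the partial norm -/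
noncomputable def LS (v : (𝓞 K)ˣ) : ℝ := ∑ τ ∈ D.S, lg D.N τ v

lemma LS_mul (v w : (𝓞 K)ˣ) : D.LS (v * w) = D.LS v + D.LS w := by
  unfold LS
  rw [← Finset.sum_add_distrib]
  exact Finset.sum_congr rfl fun τ _ => lg_mul _ _ _ _

lemma LS_one : D.LS (1 : (𝓞 K)ˣ) = 0 := by
  unfold LS
  exact Finset.sum_eq_zero fun τ _ => lg_one _ _

open scoped Classical in
/-- the normalising exponent -/
noncomputable def nu (v : (𝓞 K)ˣ) (p : Prop) : ℝ := if p then -(D.LS v) / D.k else D.LS v / D.k'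

lemma nu_mul (v w : (𝓞 K)ˣ) (p : Prop) : D.nu (v * w) p = D.nu v p + D.nu w p := by
  unfold nu
  split_ifs <;> rw [LS_mul] <;> ring

lemma nu_one (p : Prop) : D.nu (1 : (𝓞 K)ˣ) p = 0 := by
  unfold nu
  split_ifs <;> simp [LS_one]

/-- the normalised embedding of the units -/
noncomputable def rho : (𝓞 K)ˣ →* ((K →+* ℂ) → ℂˣ) where
  toFun v := fun τ => Units.mk0 (τ (uu D.N v) * ((Real.exp (D.nu v (τ ∈ D.S)) : ℝ) : ℂ))
    (mul_ne_zero (tau_ne _ _ _) (by exact_mod_cast (Real.exp_pos _).ne'))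
  map_one' := by
    funext τ
    apply Units.ext
    simp [uu_one, nu_one]
  map_mul' v w := by
    funext τ
    apply Units.ext
    simp only [Units.val_mk0, Pi.mul_apply, Units.val_mul, uu_mul, map_mul, nu_mul, Real.exp_add,
      Complex.ofReal_mul]
    ring

lemma rho_val (v : (𝓞 K)ˣ) (τ : K →+* ℂ) :
    ((D.rho v τ : ℂˣ) : ℂ) = τ (uu D.N v) * ((Real.exp (D.nu v (τ ∈ D.S)) : ℝ) : ℂ) := rfl

/-- the logarithm of the contraction rate -/
noncomputable def lq (v : (𝓞 K)ˣ) : ℝ := D.nu v False - D.nu v True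

lemma lq_mul (v w : (𝓞 K)ˣ) : D.lq (v * w) = D.lq v + D.lq w := by
  unfold lq; rw [nu_mul, nu_mul]; ring

lemma lq_one : D.lq (1 : (𝓞 K)ˣ) = 0 := by
  unfold lq; rw [nu_one, nu_one, sub_zero]

lemma lq_inv (v : (𝓞 K)ˣ) : D.lq v⁻¹ = - D.lq v := by
  have := D.lq_mul v v⁻¹
  rw [mul_inv_cancel, lq_one] at this
  linarith

/-- closure of the normalised group of units -/
noncomputable def C : Subgroup ((K →+* ℂ) → ℂˣ) := D.rho.range.topologicalClosure

lemma isClosed_C : IsClosed (D.C : Set ((K →+* ℂ) → ℂˣ)) := Subgroup.isClosed_topologicalClosure _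

open scoped Classical in
lemma sum_split (f : (K →+* ℂ) → ℝ) :
    ∑ τ : K →+* ℂ, f τ = ∑ τ ∈ D.S, f τ + ∑ τ ∈ D.Sᶜ, f τ :=
  (Finset.sum_add_sum_compl D.S f).symm

open scoped Classical in
lemma card_compl : ((D.Sᶜ).card : ℝ) = D.k' := by
  rw [Finset.card_compl, D.card_emb, k', Nat.cast_sub]
  rw [← D.hIS]
  exact D.hI'.le

/-! ### Units contracting the embeddings in `S` -/

open scoped Classical in
/-- a sequence of units in the direction contracting `S` -/
lemma exists_seq : ∃ R : ℝ, 0 ≤ R ∧ ∀ m : ℕ, ∃ v : (𝓞 K)ˣ,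
    (∀ τ : K →+* ℂ, Real.exp (-R) ≤ ‖((D.rho v τ : ℂˣ) : ℂ)‖ ∧
      ‖((D.rho v τ : ℂˣ) : ℂ)‖ ≤ Real.exp R) ∧ D.lq v ≤ -(m : ℝ) + R := by
  obtain ⟨R, hR, h⟩ := exists_unit_pow_near K D.N D.hN
  have hk := D.k_pos
  have hk' := D.k'_pos
  refine ⟨2 * R, by positivity, fun m => ?_⟩
  set p : InfinitePlace K → ℝ := fun w => if ∃ τ ∈ D.S, InfinitePlace.mk τ = w then
    -(D.k' * m) else D.k * m with hp
  have hpS : ∀ τ : K →+* ℂ, p (InfinitePlace.mk τ) = if τ ∈ D.S then -(D.k' * m) else D.k * m := by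
    intro τ
    have h1 : (∃ τ' ∈ D.S, InfinitePlace.mk τ' = InfinitePlace.mk τ) ↔ τ ∈ D.S := by
      constructor
      · rintro ⟨τ', hτ', he⟩
        rcases InfinitePlace.mk_eq_iff.1 he with h | h
        · rwa [← h]
        · rw [← h]; exact D.hSc _ hτ'
      · exact fun h => ⟨τ, h, rfl⟩
    simp only [hp, h1]
  have hsum : ∑ τ : K →+* ℂ, p (InfinitePlace.mk τ) = 0 := by
    have e1 : ∑ τ ∈ D.S, p (InfinitePlace.mk τ) = ∑ τ ∈ D.S, -(D.k' * m) :=
      Finset.sum_congr rfl fun τ hτ => by rw [hpS, if_pos hτ]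
    have e2 : ∑ τ ∈ D.Sᶜ, p (InfinitePlace.mk τ) = ∑ τ ∈ D.Sᶜ, D.k * m :=
      Finset.sum_congr rfl fun τ hτ => by rw [hpS, if_neg (Finset.mem_compl.1 hτ)]
    rw [D.sum_split, e1, e2, Finset.sum_const, Finset.sum_const, nsmul_eq_mul, nsmul_eq_mul,
      D.card_compl]
    show D.k * _ + _ = _
    ring
  obtain ⟨v, hv⟩ := h p hsum
  have hv' : ∀ τ : K →+* ℂ, |lg D.N τ v - if τ ∈ D.S then -(D.k' * m) else D.k * m| ≤ R := by
    intro τ
    rw [← hpS]
    exact hv τ
  have hLS : |D.LS v + D.k * (D.k' * m)| ≤ D.k * R := by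
    have h1 : D.LS v + D.k * (D.k' * m)
        = ∑ τ ∈ D.S, (lg D.N τ v - if τ ∈ D.S then -(D.k' * m) else D.k * m) := by
      have e1 : ∑ τ ∈ D.S, (if τ ∈ D.S then -(D.k' * (m : ℝ)) else D.k * m)
          = ∑ τ ∈ D.S, -(D.k' * (m : ℝ)) :=
        Finset.sum_congr rfl fun τ hτ => by rw [if_pos hτ]
      rw [Finset.sum_sub_distrib, e1, Finset.sum_const, nsmul_eq_mul]
      show D.LS v + _ = D.LS v - D.k * _
      ring
    rw [h1]
    refine (Finset.abs_sum_le_sum_abs _ _).trans ?_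
    refine (Finset.sum_le_sum fun τ _ => hv' τ).trans ?_
    rw [Finset.sum_const, nsmul_eq_mul]
    exact le_refl _
  have hLS' : |D.LS v + D.k' * (D.k * m)| ≤ D.k' * R := by
    have h0 := sum_lg (K := K) D.N v
    rw [D.sum_split] at h0
    have h1 : D.LS v + D.k' * (D.k * m)
        = - ∑ τ ∈ D.Sᶜ, (lg D.N τ v - if τ ∈ D.S then -(D.k' * m) else D.k * m) := by
      have e1 : ∑ τ ∈ D.Sᶜ, (if τ ∈ D.S then -(D.k' * (m : ℝ)) else D.k * m)
          = ∑ τ ∈ D.Sᶜ, (D.k * (m : ℝ)) :=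
        Finset.sum_congr rfl fun τ hτ => by rw [if_neg (Finset.mem_compl.1 hτ)]
      rw [Finset.sum_sub_distrib, e1, Finset.sum_const, nsmul_eq_mul, D.card_compl]
      have h2 : D.LS v = ∑ τ ∈ D.S, lg D.N τ v := rfl
      rw [h2]
      linarith
    rw [h1, abs_neg]
    refine (Finset.abs_sum_le_sum_abs _ _).trans ?_
    refine (Finset.sum_le_sum fun τ _ => hv' τ).trans ?_
    rw [Finset.sum_const, nsmul_eq_mul, D.card_compl]
  have hn1 : |D.nu v True - D.k' * m| ≤ R := by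
    have h1 : D.nu v True - D.k' * m = -((D.LS v + D.k * (D.k' * m)) / D.k) := by
      simp only [nu, if_true]
      field_simp
      ring
    rw [h1, abs_neg, abs_div, abs_of_pos hk, div_le_iff₀ hk]
    linarith
  have hn2 : |D.nu v False - -(D.k * m)| ≤ R := by
    have h1 : D.nu v False - -(D.k * m) = (D.LS v + D.k' * (D.k * m)) / D.k' := by
      simp only [nu, if_false]
      field_simp
      ring
    rw [h1, abs_div, abs_of_pos hk', div_le_iff₀ hk']
    linarith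
  refine ⟨v, fun τ => ?_, ?_⟩
  · have h8 : Real.log ‖((D.rho v τ : ℂˣ) : ℂ)‖ = lg D.N τ v + D.nu v (τ ∈ D.S) := by
      rw [D.rho_val, norm_mul, Real.log_mul (norm_ne_zero_iff.2 (tau_ne _ _ _))]
      · rw [Complex.norm_real, Real.norm_eq_abs, Real.abs_exp, Real.log_exp]
        rfl
      · rw [Complex.norm_real, Real.norm_eq_abs, Real.abs_exp]
        exact (Real.exp_pos _).ne'
    have hpos : 0 < ‖((D.rho v τ : ℂˣ) : ℂ)‖ := norm_pos_iff.2 (Units.ne_zero _)
    have h9 : |lg D.N τ v + D.nu v (τ ∈ D.S)| ≤ 2 * R := by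
      have h10 := hv' τ
      by_cases hτ : τ ∈ D.S
      · rw [if_pos hτ] at h10
        have h11 : D.nu v (τ ∈ D.S) = D.nu v True := by rw [eq_true hτ]
        rw [h11]
        rw [abs_le] at h10 hn1 ⊢
        constructor <;> linarith [h10.1, h10.2, hn1.1, hn1.2]
      · rw [if_neg hτ] at h10
        have h11 : D.nu v (τ ∈ D.S) = D.nu v False := by rw [eq_false hτ]
        rw [h11]
        rw [abs_le] at h10 hn2 ⊢
        constructor <;> linarith [h10.1, h10.2, hn2.1, hn2.2]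
    rw [abs_le] at h9
    constructor
    · rw [← Real.exp_log hpos, Real.exp_le_exp, h8]
      linarith [h9.1]
    · rw [← Real.exp_log hpos, Real.exp_le_exp, h8]
      linarith [h9.2]
  · unfold lq
    rw [abs_le] at hn1 hn2
    have h1 := D.one_le_k
    have h2 := D.one_le_k'
    have h3 : (0 : ℝ) ≤ m := Nat.cast_nonneg m
    nlinarith [hn1.1, hn2.2, mul_le_mul_of_nonneg_right h1 h3, mul_le_mul_of_nonneg_right h2 h3]

/-- units close to `1` in the normalised sense and contracting `S` -/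
lemma exists_small (δ : ℝ) (hδ : 0 < δ) : ∃ v : (𝓞 K)ˣ,
    (∀ τ : K →+* ℂ, ‖((D.rho v τ : ℂˣ) : ℂ) - 1‖ < δ) ∧ Real.exp (D.lq v) < δ := by
  classical
  obtain ⟨R, hR, h⟩ := D.exists_seq
  choose v hv hv2 using h
  set s : ℕ → (K →+* ℂ) → ℂ := fun m τ => ((D.rho (v m) τ : ℂˣ) : ℂ) with hs
  have hbd : ∀ m, s m ∈ Metric.closedBall (0 : (K →+* ℂ) → ℂ) (Real.exp R) := by
    intro m
    rw [mem_closedBall_zero_iff, pi_norm_le_iff_of_nonneg (Real.exp_pos R).le]
    exact fun τ => (hv m τ).2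
  obtain ⟨s', _, σ, hσ, hlim⟩ :=
    (isCompact_closedBall (0 : (K →+* ℂ) → ℂ) (Real.exp R)).tendsto_subseq hbd
  set δ' := δ * Real.exp (-R) / 2 with hδ'
  have hδ'pos : 0 < δ' := by positivity
  rw [Metric.tendsto_atTop] at hlim
  obtain ⟨k0, hk0⟩ := hlim δ' hδ'pos
  -- choose `l` large
  have hr0 : Tendsto (fun l : ℕ => Real.exp (D.lq (v (σ l)) - D.lq (v (σ k0)))) atTop (𝓝 0) := by
    refine Real.tendsto_exp_atBot.comp ?_
    refine tendsto_atBot_add_const_right _ _ ?_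
    have h1 : Tendsto (fun l : ℕ => -(σ l : ℝ) + R) atTop atBot := by
      refine tendsto_atBot_add_const_right _ _ ?_
      refine tendsto_neg_atTop_atBot.comp ?_
      exact tendsto_natCast_atTop_atTop.comp hσ.tendsto_atTop
    exact tendsto_atBot_mono (fun l => hv2 (σ l)) h1
  obtain ⟨l, hl0, hl⟩ := ((hr0.eventually_lt_const hδ).and (eventually_ge_atTop k0)).exists
  refine ⟨v (σ l) * (v (σ k0))⁻¹, fun τ => ?_, ?_⟩
  · have e1 : ((D.rho (v (σ l) * (v (σ k0))⁻¹) τ : ℂˣ) : ℂ)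
        = s (σ l) τ * (s (σ k0) τ)⁻¹ := by
      rw [map_mul, map_inv]
      simp [hs]
    have hne : s (σ k0) τ ≠ 0 := Units.ne_zero _
    have e2 : s (σ l) τ * (s (σ k0) τ)⁻¹ - 1 = (s (σ l) τ - s (σ k0) τ) * (s (σ k0) τ)⁻¹ := by
      field_simp
    rw [e1, e2, norm_mul, norm_inv]
    have h3 : ‖s (σ l) τ - s (σ k0) τ‖ < 2 * δ' := by
      have a1 := (dist_pi_lt_iff hδ'pos).1 (hk0 l hl) τ
      have a2 := (dist_pi_lt_iff hδ'pos).1 (hk0 k0 le_rfl) τ
      rw [← dist_eq_norm]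
      have a3 := dist_triangle_right (s (σ l) τ) (s (σ k0) τ) (s' τ)
      simp only [Function.comp] at a1 a2
      linarith
    have h4 : ‖s (σ k0) τ‖⁻¹ ≤ Real.exp R := by
      rw [inv_le_comm₀ (norm_pos_iff.2 hne) (Real.exp_pos R), ← Real.exp_neg]
      exact (hv (σ k0) τ).1
    calc ‖s (σ l) τ - s (σ k0) τ‖ * ‖s (σ k0) τ‖⁻¹
        < 2 * δ' * Real.exp R := by
          refine lt_of_lt_of_le (mul_lt_mul_of_pos_right h3 (inv_pos.2 (norm_pos_iff.2 hne))) ?_
          exact mul_le_mul_of_nonneg_left h4 (by positivity)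
      _ = δ := by
          rw [hδ']
          have : Real.exp (-R) * Real.exp R = 1 := by rw [← Real.exp_add]; simp
          linear_combination δ * this
  · rw [D.lq_mul, D.lq_inv, ← sub_eq_add_neg]
    exact hl0

end SDat

end Pool.Agent.TH223.E
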