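import Mathlib
import Pool.Agent.TH223.E.SDat

/-! # The closure of the orbit -/

open NumberField Filter Topology Matrix

namespace Pool.Agent.TH223.E

open H715R2

set_option linter.unusedSectionVars false

variable {K : Type*} [Field K] [NumberField K] {d : ℕ}

lemma basis_inj (b : Module.Basis (Fin d) ℚ K) (x y : Fin d → ℤ)
    (h : ∑ j, (x j : ℚ) • b j = ∑ j, (y j : ℚ) • b j) : x = y := by
  have h1 : ∑ j, ((x j : ℚ) - (y j : ℚ)) • b j = 0 := by
    simp only [sub_smul, Finset.sum_sub_distrib, h, sub_self]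
  have h2 := Fintype.linearIndependent_iff.1 b.linearIndependent _ h1
  funext j
  have h3 := h2 j
  have h4 : (x j : ℚ) = y j := by linarith
  exact_mod_cast h4

lemma sum_single (b : Module.Basis (Fin d) ℚ K) (j : Fin d) :
    (∑ j', ((Pi.single j (1 : ℤ) : Fin d → ℤ) j' : ℚ) • b j') = b j := by
  rw [Finset.sum_eq_single j]
  · simp
  · intro j' _ hj'
    simp [Pi.single_eq_of_ne hj']
  · intro h
    exact absurd (Finset.mem_univ _) h

namespace SDat

variable (D : SDat K d)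

/-- the integer matrix of multiplication by a unit -/
lemma exists_gam (v : (𝓞 K)ˣ) : ∃ γ : Matrix (Fin d) (Fin d) ℤ, IsUnit γ.det ∧
    ∀ (τ : K →+* ℂ) (j : Fin d),
      ∑ j', τ (D.b j') * ((γ j' j : ℤ) : ℂ) = τ (uu D.N v) * τ (D.b j) := by
  classical
  choose U hU using fun (v : (𝓞 K)ˣ) (j : Fin d) => D.act v (Pi.single j 1)
  have hU' : ∀ v j, ∑ j', ((U v j j' : ℤ) : ℚ) • D.b j' = uu D.N v * D.b j := by
    intro v j
    rw [hU, sum_single]
    rfl
  have hmul : ∀ v w : (𝓞 K)ˣ, v * w = 1 →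
      (Matrix.of fun j' j => U v j j') * (Matrix.of fun j' j => U w j j') = 1 := by
    intro v w hvw
    ext j' j
    revert j'
    have h1 : (fun j' => ((Matrix.of fun j' j => U v j j') * (Matrix.of fun j' j => U w j j')) j' j)
        = (Pi.single j 1 : Fin d → ℤ) := by
      apply basis_inj D.b
      rw [sum_single]
      have h2 : ∀ j', (((((Matrix.of fun j' j => U v j j') *
          (Matrix.of fun j' j => U w j j')) j' j : ℤ)) : ℚ) • D.b j'
          = ∑ l, ((U w j l : ℤ) : ℚ) • ((U v l j' : ℤ) : ℚ) • D.b j' := by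
        intro j'
        rw [Matrix.mul_apply]
        push_cast
        rw [Finset.sum_smul]
        refine Finset.sum_congr rfl fun l _ => ?_
        rw [Matrix.of_apply, Matrix.of_apply, smul_smul, mul_comm]
      rw [Finset.sum_congr rfl fun j' _ => h2 j', Finset.sum_comm]
      have h3 : ∀ l, ∑ j', ((U w j l : ℤ) : ℚ) • ((U v l j' : ℤ) : ℚ) • D.b j'
          = uu D.N v * (((U w j l : ℤ) : ℚ) • D.b l) := by
        intro l
        rw [← Finset.smul_sum, hU', mul_smul_comm]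
      rw [Finset.sum_congr rfl fun l _ => h3 l, ← Finset.mul_sum, hU', ← mul_assoc, ← uu_mul, hvw,
        uu_one, one_mul]
    intro j'
    have h2 : ((Matrix.of fun j' j => U v j j') * (Matrix.of fun j' j => U w j j')) j' j
        = (Pi.single j 1 : Fin d → ℤ) j' := congrFun h1 j'
    rw [h2, Matrix.one_apply, Pi.single_apply]
  refine ⟨Matrix.of fun j' j => U v j j', ?_, fun τ j => ?_⟩
  · have h1 := congrArg Matrix.det (hmul v v⁻¹ (mul_inv_cancel v))
    rw [det_mul, det_one] at h1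
    exact IsUnit.of_mul_eq_one _ h1
  · have h1 := congrArg τ (hU' v j)
    rw [map_mul, map_sum] at h1
    rw [← h1]
    refine Finset.sum_congr rfl fun j' _ => ?_
    rw [Algebra.smul_def, map_mul, Matrix.of_apply, mul_comm]
    simp

lemma entry (v : (𝓞 K)ˣ) (a : Fin d → ℝ) (γ : Matrix (Fin d) (Fin d) ℤ)
    (hγ : ∀ (τ : K →+* ℂ) (j : Fin d),
      ∑ j', τ (D.b j') * ((γ j' j : ℤ) : ℂ) = τ (uu D.N v) * τ (D.b j)) (i j : Fin d) :
    (((diagonal a * D.h * zR γ) i j : ℝ) : ℂ)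
      = ∑ τ : K →+* ℂ, D.H i τ * ((a i : ℂ) * τ (uu D.N v)) * τ (D.b j) := by
  rw [Matrix.mul_apply]
  push_cast
  have h1 : ∀ j', (((diagonal a * D.h) i j' : ℝ) : ℂ) * ((zR γ j' j : ℝ) : ℂ)
      = ∑ τ : K →+* ℂ, (a i : ℂ) * D.H i τ * (τ (D.b j') * ((γ j' j : ℤ) : ℂ)) := by
    intro j'
    have hz : zR γ j' j = ((γ j' j : ℤ) : ℝ) := rfl
    rw [diagonal_mul, Complex.ofReal_mul, D.hH, hz, Finset.mul_sum, Finset.sum_mul]
    refine Finset.sum_congr rfl fun τ _ => ?_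
    rw [Complex.ofReal_intCast]
    ring
  rw [Finset.sum_congr rfl fun j' _ => h1 j', Finset.sum_comm]
  refine Finset.sum_congr rfl fun τ _ => ?_
  rw [← Finset.mul_sum, hγ]
  ring

open scoped Classical in
/-- the block-diagonal part of the coefficients -/
noncomputable def Hb (i : Fin d) (τ : K →+* ℂ) : ℂ := if (i ∈ D.I ↔ τ ∈ D.S) then D.H i τ else 0

/-- complex entries of the limit matrices -/
noncomputable def Hc (c : (K →+* ℂ) → ℂ) (i j : Fin d) : ℂ :=
  ∑ τ : K →+* ℂ, D.Hb i τ * c τ * τ (D.b j)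

/-- the limit matrices -/
noncomputable def hc (c : (K →+* ℂ) → ℂ) : Matrix (Fin d) (Fin d) ℝ :=
  Matrix.of fun i j => (D.Hc c i j).re

lemma sum_nu (v : (𝓞 K)ˣ) : ∑ i : Fin d, D.nu v (i ∈ D.I) = 0 := by
  classical
  have hk := D.k_pos
  have hk' := D.k'_pos
  have e1 : ∑ i ∈ D.I, D.nu v (i ∈ D.I) = ∑ i ∈ D.I, D.nu v True :=
    Finset.sum_congr rfl fun i hi => by rw [eq_true hi]
  have e2 : ∑ i ∈ D.Iᶜ, D.nu v (i ∈ D.I) = ∑ i ∈ D.Iᶜ, D.nu v False :=
    Finset.sum_congr rfl fun i hi => by rw [eq_false (Finset.mem_compl.1 hi)]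
  have e3 : ((D.Iᶜ).card : ℝ) = D.k' := by
    rw [Finset.card_compl, Fintype.card_fin, Nat.cast_sub D.hI'.le, D.hIS]
    rfl
  rw [← Finset.sum_add_sum_compl D.I, e1, e2, Finset.sum_const, Finset.sum_const, nsmul_eq_mul,
    nsmul_eq_mul, e3, D.hIS]
  show D.k * _ + _ = _
  simp only [nu, if_true, if_false]
  field_simp
  ring

/-- approximation by points of the orbit -/
lemma approx (v : (𝓞 K)ˣ) : ∃ M : ℕ → Matrix (Fin d) (Fin d) ℝ, (∀ n, M n ∈ Orb D.h) ∧
    ∀ i j, Tendsto (fun n => ((M n i j : ℝ) : ℂ)) atTop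
      (𝓝 (D.Hc (fun τ => ((D.rho v τ : ℂˣ) : ℂ)) i j)) := by
  classical
  have h := fun k : ℕ => D.exists_small (1 / ((k : ℝ) + 1)) (by positivity)
  choose w hw1 hw2 using h
  choose γ hγu hγ using fun k : ℕ => D.exists_gam (v * w k)
  have hq0 : Tendsto (fun k : ℕ => ((Real.exp (D.lq (v * w k)) : ℝ) : ℂ)) atTop (𝓝 0) := by
    have h1 : Tendsto (fun k : ℕ => Real.exp (D.lq (w k))) atTop (𝓝 0) :=
      squeeze_zero (fun k => (Real.exp_pos _).le) (fun k => (hw2 k).le)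
        tendsto_one_div_add_atTop_nhds_zero_nat
    have h2 : Tendsto (fun k : ℕ => Real.exp (D.lq (v * w k))) atTop (𝓝 0) := by
      simp only [D.lq_mul, Real.exp_add]
      simpa using h1.const_mul (Real.exp (D.lq v))
    have h3 := (Complex.continuous_ofReal.tendsto 0).comp h2
    rw [Complex.ofReal_zero] at h3
    exact h3
  have hρ : ∀ τ : K →+* ℂ, Tendsto (fun k : ℕ => ((D.rho (v * w k) τ : ℂˣ) : ℂ)) atTop
      (𝓝 ((D.rho v τ : ℂˣ) : ℂ)) := by
    intro τ
    have h1 : Tendsto (fun k : ℕ => ((D.rho (w k) τ : ℂˣ) : ℂ)) atTop (𝓝 1) := by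
      rw [tendsto_iff_norm_sub_tendsto_zero]
      exact squeeze_zero (fun k => norm_nonneg _) (fun k => (hw1 k τ).le)
        tendsto_one_div_add_atTop_nhds_zero_nat
    have h2 : ∀ k, ((D.rho (v * w k) τ : ℂˣ) : ℂ)
        = ((D.rho v τ : ℂˣ) : ℂ) * ((D.rho (w k) τ : ℂˣ) : ℂ) := by
      intro k; rw [map_mul]; rfl
    simp only [h2]
    simpa using h1.const_mul ((D.rho v τ : ℂˣ) : ℂ)
  refine ⟨fun k => diagonal (fun i => Real.exp (D.nu (v * w k) (i ∈ D.I))) * D.h * zR (γ k),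
    fun k => ⟨_, γ k, fun i => Real.exp_pos _, ?_, hγu k, rfl⟩, fun i j => ?_⟩
  · rw [← Real.exp_sum, D.sum_nu, Real.exp_zero]
  · have h1 : ∀ k, (((diagonal (fun i => Real.exp (D.nu (v * w k) (i ∈ D.I))) * D.h * zR (γ k)) i j
        : ℝ) : ℂ) = ∑ τ : K →+* ℂ, D.H i τ * ((Real.exp (D.nu (v * w k) (i ∈ D.I)) : ℂ) *
          τ (uu D.N (v * w k))) * τ (D.b j) := fun k => D.entry _ _ _ (hγ k) i j
    simp only [h1]
    unfold Hc
    refine tendsto_finsetSum _ fun τ _ => ?_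
    refine Tendsto.mul ?_ tendsto_const_nhds
    by_cases hi : i ∈ D.I
    · by_cases hτ : τ ∈ D.S
      · have e1 : D.Hb i τ = D.H i τ := by rw [Hb, if_pos (iff_of_true hi hτ)]
        rw [e1]
        refine Tendsto.mul tendsto_const_nhds ?_
        refine (hρ τ).congr fun k => ?_
        rw [D.rho_val, eq_true hi, eq_true hτ, mul_comm]
      · have e1 : D.H i τ = 0 := D.hSI i hi τ hτ
        have e2 : D.Hb i τ = 0 := by rw [Hb, e1]; split_ifs <;> rfl
        simp only [e1, e2, zero_mul]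
        exact tendsto_const_nhds
    · by_cases hτ : τ ∈ D.S
      · have e2 : D.Hb i τ = 0 := by
          rw [Hb, if_neg]
          intro h
          exact hi (h.2 hτ)
        rw [e2, zero_mul]
        have e3 : ∀ k, ((Real.exp (D.nu (v * w k) (i ∈ D.I)) : ℝ) : ℂ) * τ (uu D.N (v * w k))
            = ((D.rho (v * w k) τ : ℂˣ) : ℂ) * ((Real.exp (D.lq (v * w k)) : ℝ) : ℂ) := by
          intro k
          rw [D.rho_val, eq_false hi, eq_true hτ, mul_assoc, ← Complex.ofReal_mul, ← Real.exp_add,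
            lq, add_sub_cancel, mul_comm]
        simp only [e3]
        have h4 := ((hρ τ).mul hq0).const_mul (D.H i τ)
        rw [mul_zero, mul_zero] at h4
        exact h4
      · have e1 : D.Hb i τ = D.H i τ := by rw [Hb, if_pos (iff_of_false hi hτ)]
        rw [e1]
        refine Tendsto.mul tendsto_const_nhds ?_
        refine (hρ τ).congr fun k => ?_
        rw [D.rho_val, eq_false hi, eq_false hτ, mul_comm]

lemma continuous_Hc (i j : Fin d) : Continuous fun c : (K →+* ℂ) → ℂ => D.Hc c i j := by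
  unfold Hc
  fun_prop

lemma continuous_coe : Continuous fun (c : (K →+* ℂ) → ℂˣ) => (fun τ => ((c τ : ℂˣ) : ℂ)) :=
  continuous_pi fun τ => Units.continuous_val.comp (continuous_apply τ)

lemma continuous_hc : Continuous fun c : (K →+* ℂ) → ℂ => D.hc c := by
  refine continuous_matrix fun i j => ?_
  exact Complex.continuous_re.comp (D.continuous_Hc i j)

/-- the limit matrices are real and belong to the closure of the orbit -/
theorem hc_mem (c : (K →+* ℂ) → ℂˣ) (hcC : c ∈ D.C) :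
    D.hc (fun τ => ((c τ : ℂˣ) : ℂ)) ∈ closure (Orb D.h) ∧
      ∀ i j, ((D.hc (fun τ => ((c τ : ℂˣ) : ℂ)) i j : ℝ) : ℂ)
        = D.Hc (fun τ => ((c τ : ℂˣ) : ℂ)) i j := by
  have hcl : IsClosed {c : (K →+* ℂ) → ℂˣ | D.hc (fun τ => ((c τ : ℂˣ) : ℂ)) ∈ closure (Orb D.h) ∧
      ∀ i j, ((D.hc (fun τ => ((c τ : ℂˣ) : ℂ)) i j : ℝ) : ℂ)
        = D.Hc (fun τ => ((c τ : ℂˣ) : ℂ)) i j} := by
    rw [Set.ofPred_and]
    refine IsClosed.inter ?_ ?_
    · exact isClosed_closure.preimage (D.continuous_hc.comp continuous_coe)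
    · simp only [Set.ofPred_forall]
      refine isClosed_iInter fun i => isClosed_iInter fun j => ?_
      refine isClosed_eq ?_ ?_
      · exact Complex.continuous_ofReal.comp
          (Complex.continuous_re.comp ((D.continuous_Hc i j).comp continuous_coe))
      · exact (D.continuous_Hc i j).comp continuous_coe
  have hsub : (D.rho.range : Set ((K →+* ℂ) → ℂˣ)) ⊆ {c : (K →+* ℂ) → ℂˣ |
      D.hc (fun τ => ((c τ : ℂˣ) : ℂ)) ∈ closure (Orb D.h) ∧
      ∀ i j, ((D.hc (fun τ => ((c τ : ℂˣ) : ℂ)) i j : ℝ) : ℂ)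
        = D.Hc (fun τ => ((c τ : ℂˣ) : ℂ)) i j} := by
    rintro _ ⟨v, rfl⟩
    obtain ⟨M, hM, hlim⟩ := D.approx v
    have hlim' : ∀ i j, Tendsto (fun n => M n i j) atTop
        (𝓝 (D.hc (fun τ => ((D.rho v τ : ℂˣ) : ℂ)) i j)) := by
      intro i j
      have := (Complex.continuous_re.tendsto _).comp (hlim i j)
      exact this
    have hlimM : Tendsto M atTop (𝓝 (D.hc (fun τ => ((D.rho v τ : ℂˣ) : ℂ)))) := by
      refine tendsto_pi_nhds.2 fun i => ?_
      refine tendsto_pi_nhds.2 fun j => ?_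
      exact hlim' i j
    refine ⟨mem_closure_of_tendsto hlimM (Eventually.of_forall hM), fun i j => ?_⟩
    · have h1 := (Complex.continuous_ofReal.tendsto _).comp (hlim' i j)
      exact tendsto_nhds_unique h1 (hlim i j)
  have hc' : c ∈ closure (D.rho.range : Set ((K →+* ℂ) → ℂˣ)) := hcC
  exact closure_minimal hsub hcl hc'

/-! ### Separation of embeddings by the tangent space -/

theorem separation (τ τ' : K →+* ℂ) (hne : τ ≠ τ') (hτ : τ ∈ D.S) (hτ' : τ' ∈ D.S) :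
    ∃ η ∈ tang D.C, η τ ≠ η τ' := by
  classical
  by_contra hcon
  push Not at hcon
  obtain ⟨δ0, hδ0, h0⟩ := exists_nhds_tang D.C D.isClosed_C
  obtain ⟨δ1, hδ1, h1⟩ := exists_log (ι := (K →+* ℂ)) δ0 hδ0
  obtain ⟨v, hv1, hv2⟩ := D.exists_small (min δ1 (1 / 4)) (lt_min hδ1 (by norm_num))
  obtain ⟨η, hη, hη'⟩ := h1 (D.rho v) (fun i => (hv1 i).trans_le (min_le_left _ _))
  have hmem : D.rho v ∈ D.C := by
    have : D.rho v ∈ D.rho.range := ⟨v, rfl⟩
    exact Subgroup.le_topologicalClosure _ this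
  have hη2 := h0 η hη (by rw [hη']; exact hmem)
  have h2 := hcon η hη2
  have h3 : ((D.rho v τ : ℂˣ) : ℂ) = ((D.rho v τ' : ℂˣ) : ℂ) := by
    rw [← hη', coe_expM, coe_expM, h2]
  rw [D.rho_val, D.rho_val, eq_true hτ, eq_true hτ'] at h3
  have hr : ((Real.exp (D.nu v True) : ℝ) : ℂ) ≠ 0 := by exact_mod_cast (Real.exp_pos _).ne'
  obtain ⟨σ, hσ, σ', hσ', h4⟩ := D.hsep τ τ' hne hτ hτ' _ (mul_right_cancel₀ hr h3)
  have h5 : ‖((D.rho v σ' : ℂˣ) : ℂ)‖ = ‖((D.rho v σ : ℂˣ) : ℂ)‖ * Real.exp (D.lq v) := by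
    rw [D.rho_val, D.rho_val, eq_false hσ', eq_true hσ, h4, norm_mul, norm_mul, Complex.norm_real,
      Complex.norm_real, Real.norm_eq_abs, Real.norm_eq_abs, Real.abs_exp, Real.abs_exp, mul_assoc,
      ← Real.exp_add, lq, add_sub_cancel]
  have h6 := (hv1 σ).trans_le (min_le_right _ _)
  have h7 := (hv1 σ').trans_le (min_le_right _ _)
  have h8 := norm_sub_norm_le (1 : ℂ) ((D.rho v σ' : ℂˣ) : ℂ)
  have h9 := norm_sub_norm_le ((D.rho v σ : ℂˣ) : ℂ) (1 : ℂ)
  rw [norm_one] at h8 h9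
  rw [norm_sub_rev] at h8
  have h10 : Real.exp (D.lq v) < 1 / 4 := hv2.trans_le (min_le_right _ _)
  have h11 : 0 ≤ ‖((D.rho v σ : ℂˣ) : ℂ)‖ := norm_nonneg _
  have h12 := Real.exp_pos (D.lq v)
  nlinarith

end SDat

end Pool.Agent.TH223.E
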