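import Mathlib
import Pool.Agent.TH223.E.SClosure

/-! # The rows in an invariant coordinate subspace are algebraic -/

open NumberField Filter Topology Matrix

namespace Pool.Agent.TH223.E

open H715R2

set_option linter.unusedSectionVars false

variable {K : Type*} [Field K] [NumberField K] {d : ℕ}

namespace SDat

variable (D : SDat K d)

lemma H_conj (i : Fin d) (τ : K →+* ℂ) :
    D.H i (ComplexEmbedding.conjugate τ) = (starRingEnd ℂ) (D.H i τ) := by
  have h := embed_indep D.b
    (fun τ => D.H i τ - (starRingEnd ℂ) (D.H i (ComplexEmbedding.conjugate τ))) ?_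
  · have h1 := congrFun h (ComplexEmbedding.conjugate τ)
    have h2 : ComplexEmbedding.conjugate (ComplexEmbedding.conjugate τ) = τ := star_involutive τ
    simp only [h2, Pi.zero_apply] at h1
    exact sub_eq_zero.1 h1
  · intro j
    simp only [sub_mul, Finset.sum_sub_distrib]
    rw [← D.hH i j]
    have h3 : ∑ τ : K →+* ℂ, (starRingEnd ℂ) (D.H i (ComplexEmbedding.conjugate τ)) * τ (D.b j)
        = ∑ τ : K →+* ℂ, (starRingEnd ℂ) (D.H i τ) *
            (ComplexEmbedding.conjugate τ) (D.b j) := by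
      refine Fintype.sum_equiv (Function.Involutive.toPerm _ (star_involutive (R := K →+* ℂ)))
        _ _ fun τ => ?_
      have h2 : ComplexEmbedding.conjugate (ComplexEmbedding.conjugate τ) = τ := star_involutive τ
      show _ = (starRingEnd ℂ) (D.H i (ComplexEmbedding.conjugate τ)) *
        (ComplexEmbedding.conjugate (ComplexEmbedding.conjugate τ)) (D.b j)
      rw [h2]
    rw [h3]
    have h4 : ∀ τ : K →+* ℂ, (starRingEnd ℂ) (D.H i τ) * (ComplexEmbedding.conjugate τ) (D.b j)
        = (starRingEnd ℂ) (D.H i τ * τ (D.b j)) := by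
      intro τ
      rw [map_mul]
      rfl
    rw [Finset.sum_congr rfl fun τ _ => h4 τ, ← map_sum, ← D.hH i j, Complex.conj_ofReal, sub_self]

/-- Two non-zero coefficients of a row in `I` give a zero of a limit form. -/
theorem row_single {ν : ℝ} (hν : 0 < ν) (hnu : HasNu D.h ν) (i : Fin d) (hi : i ∈ D.I)
    (τ τ' : K →+* ℂ) (hne : τ ≠ τ') (hτ : τ ∈ D.S) (hτ' : τ' ∈ D.S) :
    D.H i τ = 0 ∨ D.H i τ' = 0 := by
  classical
  by_contra hcon
  push Not at hcon
  obtain ⟨hHτ, hHτ'⟩ := hcon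
  obtain ⟨η, hη, hηne⟩ := D.separation τ τ' hne hτ hτ'
  set c : ℝ → (K →+* ℂ) → ℂ := fun t σ => ((expM (t • η) σ : ℂˣ) : ℂ) with hc
  have hcc : Continuous c := by
    simp only [hc, coe_expM]
    fun_prop
  have hmem : ∀ t, D.hc (c t) ∈ closure (Orb D.h) := fun t => (D.hc_mem _ (hη t)).1
  have hreal : ∀ t i j, ((D.hc (c t) i j : ℝ) : ℂ) = D.Hc (c t) i j :=
    fun t => (D.hc_mem _ (hη t)).2
  set L : Matrix (Fin d) (Fin d) ℝ → ((Fin d → ℝ) →ₗ[ℝ] ℝ) :=
    fun M => (LinearMap.proj i) ∘ₗ M.mulVecLin with hL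
  have hLa : ∀ M x, L M x = ∑ j, M i j * x j := fun M x => rfl
  set f0 := L (D.hc (c 0)) with hf0
  have hc0 : ∀ σ, c 0 σ = 1 := by intro σ; simp [hc]
  have hHb : ∀ σ ∈ D.S, D.Hb i σ = D.H i σ := by
    intro σ hσ
    rw [Hb, if_pos (iff_of_true hi hσ)]
  -- the functionals along the one-parameter group
  have key : ∃ t : ℝ, ¬ ∃ κ : ℝ, 0 ≤ κ ∧ L (D.hc (c t)) = κ • f0 := by
    by_contra hcon
    push Not at hcon
    apply hηne
    have h1 : ∀ t : ℝ, Complex.exp (t * η τ) = Complex.exp (t * η τ') := by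
      intro t
      obtain ⟨κ, _, hκ⟩ := hcon t
      have h2 : ∀ j, D.Hc (c t) i j = κ * D.Hc (c 0) i j := by
        intro j
        have h3 := congrArg (fun f : (Fin d → ℝ) →ₗ[ℝ] ℝ => f (Pi.single j 1)) hκ
        simp only [hLa, LinearMap.smul_apply, hf0, smul_eq_mul] at h3
        simp only [Pi.single_apply, mul_ite, mul_one, mul_zero, Finset.sum_ite_eq',
          Finset.mem_univ, if_true] at h3
        rw [← hreal, ← hreal, h3]
        push_cast
        rfl
      have h5 := embed_indep D.b (fun σ => D.Hb i σ * (c t σ - κ)) (by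
        intro j
        have h6 := h2 j
        simp only [Hc, hc0, Finset.mul_sum] at h6
        have h7 : ∑ σ : K →+* ℂ, D.Hb i σ * (c t σ - κ) * σ (D.b j)
            = ∑ σ : K →+* ℂ, D.Hb i σ * c t σ * σ (D.b j)
              - ∑ σ : K →+* ℂ, (κ : ℂ) * (D.Hb i σ * 1 * σ (D.b j)) := by
          rw [← Finset.sum_sub_distrib]
          refine Finset.sum_congr rfl fun σ _ => ?_
          ring
        rw [h7, h6, sub_self])
      have h9 : D.H i τ * (c t τ - κ) = 0 := by
        have := congrFun h5 τ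
        simpa only [hHb τ hτ, Pi.zero_apply] using this
      have h10 : D.H i τ' * (c t τ' - κ) = 0 := by
        have := congrFun h5 τ'
        simpa only [hHb τ' hτ', Pi.zero_apply] using this
      have h11 := (mul_eq_zero.1 h9).resolve_left hHτ
      have h12 := (mul_eq_zero.1 h10).resolve_left hHτ'
      rw [sub_eq_zero] at h11 h12
      have h13 : c t τ = c t τ' := by rw [h11, h12]
      simpa [hc] using h13
    have h11 := exp_all_one (η τ - η τ') (fun t => by
      rw [mul_sub, Complex.exp_sub, h1 t, div_self (Complex.exp_ne_zero _)])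
    exact sub_eq_zero.1 h11
  obtain ⟨t₀, ht₀⟩ := key
  set f1 := L (D.hc (c t₀)) with hf1
  have hf0ne : f0 ≠ 0 := by
    intro h
    have h1 := abs_det_closure (hmem 0)
    have h2 : (D.hc (c 0)).det = 0 := by
      refine Matrix.det_eq_zero_of_row_eq_zero i fun j => ?_
      have h3 := congrArg (fun f : (Fin d → ℝ) →ₗ[ℝ] ℝ => f (Pi.single j 1)) h
      simp only [hLa, hf0, LinearMap.zero_apply] at h3
      simpa [Pi.single_apply] using h3
    rw [h2, abs_zero] at h1
    exact D.hh (abs_eq_zero.1 h1.symm)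
  obtain ⟨x0, hx0, hx0'⟩ := exists_pos_neg f0 f1 hf0ne ht₀
  have hU : IsOpen {x : Fin d → ℝ | 0 < f0 x ∧ f1 x < 0} :=
    (isOpen_lt continuous_const f0.continuous_of_finiteDimensional).inter
      (isOpen_lt f1.continuous_of_finiteDimensional continuous_const)
  obtain ⟨m, k, hk, hm⟩ := exists_int_point _ hU x0 ⟨hx0, hx0'⟩
  have hk' : (0 : ℝ) < k := by exact_mod_cast hk
  have e2 : (fun j => (m j : ℝ) / k) = (k : ℝ)⁻¹ • iR m := by
    funext j; simp [iR]; ring
  rw [e2] at hm
  obtain ⟨h6, h7⟩ := hm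
  rw [map_smul, smul_eq_mul] at h6 h7
  have h8 : 0 < f0 (iR m) := pos_of_mul_pos_right h6 (inv_nonneg.2 hk'.le)
  have h9 : f1 (iR m) < 0 := by
    by_contra hcon
    exact absurd h7 (not_lt.2 (mul_nonneg (inv_nonneg.2 hk'.le) (not_lt.1 hcon)))
  have hm0 : m ≠ 0 := by
    rintro rfl
    have : iR (0 : Fin d → ℤ) = 0 := by funext j; simp [iR]
    rw [this, map_zero] at h8
    exact lt_irrefl _ h8
  have hcont : Continuous fun t : ℝ => L (D.hc (c t)) (iR m) := by
    simp only [hLa]
    refine continuous_finsetSum _ fun j _ => ?_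
    have h10 : Continuous fun t => D.hc (c t) i j :=
      (continuous_apply_apply i j).comp (D.continuous_hc.comp hcc)
    exact h10.mul continuous_const
  obtain ⟨t1, ht1⟩ : (0 : ℝ) ∈ Set.range fun t : ℝ => L (D.hc (c t)) (iR m) :=
    mem_range_of_exists_le_of_exists_ge hcont ⟨t₀, h9.le⟩ ⟨0, h8.le⟩
  have h11 := hasNu_closure hnu (hmem t1) m hm0
  have h12 : FF (D.hc (c t1)) (iR m) = 0 := by
    rw [FF]
    exact Finset.prod_eq_zero (Finset.mem_univ i) ht1
  rw [h12, abs_zero] at h11
  exact absurd h11 (not_le.2 hν)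

/-- **Main theorem for the data.** -/
theorem main (hd : 3 ≤ d) {g : Matrix (Fin d) (Fin d) ℝ} (hg : g.det ≠ 0) {ν : ℝ} (hν : 0 < ν)
    (hnu : HasNu g ν) (hD : D.h ∈ closure (Orb g)) : PropInt g := by
  classical
  have hnuD : HasNu D.h ν := hasNu_closure hnu hD
  obtain ⟨i, hi⟩ := D.hI
  obtain ⟨τ, hτ⟩ : ∃ τ : K →+* ℂ, D.H i τ ≠ 0 := by
    by_contra hcon
    push Not at hcon
    apply D.hh
    refine Matrix.det_eq_zero_of_row_eq_zero i fun j => ?_
    have h1 := D.hH i j
    rw [Finset.sum_eq_zero (fun τ _ => by rw [hcon τ, zero_mul])] at h1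
    exact_mod_cast h1
  have hτS : τ ∈ D.S := by
    by_contra h
    exact hτ (D.hSI i hi τ h)
  have hother : ∀ τ', τ' ≠ τ → D.H i τ' = 0 := by
    intro τ' hne
    by_cases hτ' : τ' ∈ D.S
    · exact (D.row_single hν hnuD i hi τ τ' hne.symm hτS hτ').resolve_left hτ
    · exact D.hSI i hi τ' hτ'
  have hconj : ComplexEmbedding.conjugate τ = τ := by
    by_contra h
    have h1 := D.H_conj i τ
    rw [hother _ h] at h1
    exact hτ ((map_eq_zero _).1 h1.symm)
  have hreal : ComplexEmbedding.IsReal τ := ComplexEmbedding.isReal_iff.2 hconj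
  set r : ℝ := (D.H i τ).re with hr
  have hrc : (r : ℂ) = D.H i τ := by
    have h1 := D.H_conj i τ
    rw [hconj] at h1
    exact Complex.conj_eq_iff_re.1 h1.symm
  have hr0 : r ≠ 0 := by
    intro h
    apply hτ
    rw [← hrc, h, Complex.ofReal_zero]
  let φ : K →ₐ[ℚ] ℝ := (hreal.embedding).toRatAlgHom
  have hφ : ∀ z, ((φ z : ℝ) : ℂ) = τ z := fun z => hreal.coe_embedding_apply z
  have hfin : FiniteDimensional ℚ φ.fieldRange :=
    LinearEquiv.finiteDimensional (AlgEquiv.ofInjectiveField φ).toLinearEquiv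
  have hrank : Module.finrank ℚ φ.fieldRange = d := by
    have h1 : Module.finrank ℚ φ.fieldRange = Module.finrank ℚ K :=
      (LinearEquiv.finrank_eq (AlgEquiv.ofInjectiveField φ).toLinearEquiv).symm
    rw [h1, Module.finrank_eq_card_basis D.b, Fintype.card_fin]
  have hmem : ∀ j, r⁻¹ * D.h i j ∈ φ.fieldRange := by
    intro j
    refine ⟨D.b j, ?_⟩
    have h1 : D.h i j = r * φ (D.b j) := by
      have h2 := D.hH i j
      rw [Finset.sum_eq_single τ (fun τ' _ hne => by rw [hother τ' hne, zero_mul])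
        (fun h => absurd (Finset.mem_univ _) h), ← hrc, ← hφ] at h2
      exact_mod_cast h2
    rw [h1, ← mul_assoc, inv_mul_cancel₀ hr0, one_mul]
    rfl
  rcases limit_alg hd hg hD i r⁻¹ (inv_ne_zero hr0) φ.fieldRange hrank.le hmem with
    ⟨x, hx, hx0⟩ | hint | hdense
  · exfalso
    have h1 := hnuD x hx
    have h2 : FF D.h (iR x) = 0 := by
      rw [FF]
      exact Finset.prod_eq_zero (Finset.mem_univ i) hx0
    rw [h2, abs_zero] at h1
    exact absurd h1 (not_le.2 hν)
  · exact hint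
  · exfalso
    obtain ⟨x, hx, hx2⟩ := dense_ne (by omega) hdense 0 ν hν
    rw [sub_zero] at hx2
    exact absurd (hnu x hx) (not_le.2 hx2)

end SDat

end Pool.Agent.TH223.E
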