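import Mathlib
import Pool.Agent.TH223.E.SMain
import Pool.Agent.TH223.E.Fibers

/-! # From a rational matrix with irreducible characteristic polynomial to the data -/

open NumberField Filter Topology Matrix Polynomial

namespace Pool.Agent.TH223.E

open H715R2

set_option linter.unusedSectionVars false

section general

variable {K : Type*} [Field K] [NumberField K] {d : ℕ}

lemma Hconj (b : Module.Basis (Fin d) ℚ K) (g : Fin d → ℝ) (H : (K →+* ℂ) → ℂ)
    (hH : ∀ j, (g j : ℂ) = ∑ τ : K →+* ℂ, H τ * τ (b j)) (τ : K →+* ℂ) :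
    H (ComplexEmbedding.conjugate τ) = (starRingEnd ℂ) (H τ) := by
  have h := embed_indep b
    (fun τ => H τ - (starRingEnd ℂ) (H (ComplexEmbedding.conjugate τ))) ?_
  · have h1 := congrFun h (ComplexEmbedding.conjugate τ)
    have h2 : ComplexEmbedding.conjugate (ComplexEmbedding.conjugate τ) = τ := star_involutive τ
    simp only [h2, Pi.zero_apply] at h1
    exact sub_eq_zero.1 h1
  · intro j
    simp only [sub_mul, Finset.sum_sub_distrib]
    rw [← hH j]
    have h3 : ∑ τ : K →+* ℂ, (starRingEnd ℂ) (H (ComplexEmbedding.conjugate τ)) * τ (b j)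
        = ∑ τ : K →+* ℂ, (starRingEnd ℂ) (H τ) * (ComplexEmbedding.conjugate τ) (b j) := by
      refine Fintype.sum_equiv (Function.Involutive.toPerm _ (star_involutive (R := K →+* ℂ)))
        _ _ fun τ => ?_
      have h2 : ComplexEmbedding.conjugate (ComplexEmbedding.conjugate τ) = τ := star_involutive τ
      show _ = (starRingEnd ℂ) (H (ComplexEmbedding.conjugate τ)) *
        (ComplexEmbedding.conjugate (ComplexEmbedding.conjugate τ)) (b j)
      rw [h2]
    rw [h3]
    have h4 : ∀ τ : K →+* ℂ, (starRingEnd ℂ) (H τ) * (ComplexEmbedding.conjugate τ) (b j)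
        = (starRingEnd ℂ) (H τ * τ (b j)) := by
      intro τ
      rw [map_mul]
      rfl
    rw [Finset.sum_congr rfl fun τ _ => h4 τ, ← map_sum, ← hH j, Complex.conj_ofReal, sub_self]

/-- the coefficient vectors are linearly independent -/
lemma H_indep (b : Module.Basis (Fin d) ℚ K) (h : Matrix (Fin d) (Fin d) ℝ) (hh : h.det ≠ 0)
    (H : Fin d → (K →+* ℂ) → ℂ) (hH : ∀ i j, (h i j : ℂ) = ∑ τ : K →+* ℂ, H i τ * τ (b j)) :
    LinearIndependent ℂ H := by
  rw [Fintype.linearIndependent_iff]
  intro c hc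
  have h1 : c ᵥ* (h.map (Complex.ofRealHom : ℝ →+* ℂ)) = 0 := by
    funext j
    rw [Matrix.vecMul, dotProduct]
    have h2 : ∀ i, c i * (h.map (Complex.ofRealHom : ℝ →+* ℂ)) i j
        = ∑ τ : K →+* ℂ, (c i * H i τ) * τ (b j) := by
      intro i
      rw [Matrix.map_apply, Complex.ofRealHom_eq_coe, hH, Finset.mul_sum]
      exact Finset.sum_congr rfl fun τ _ => (mul_assoc _ _ _).symm
    rw [Finset.sum_congr rfl fun i _ => h2 i, Finset.sum_comm, Pi.zero_apply]
    refine Finset.sum_eq_zero fun τ _ => ?_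
    rw [← Finset.sum_mul]
    have h3 := congrFun hc τ
    simp only [Finset.sum_apply, Pi.smul_apply, smul_eq_mul, Pi.zero_apply] at h3
    rw [h3, zero_mul]
  have h4 : (h.map (Complex.ofRealHom : ℝ →+* ℂ)).det ≠ 0 := by
    have := (Complex.ofRealHom : ℝ →+* ℂ).map_det h
    rw [RingHom.mapMatrix_apply] at this
    rw [← this]
    exact (_root_.map_ne_zero _).2 hh
  have h5 := Matrix.eq_zero_of_vecMul_eq_zero h4 h1
  intro i
  exact congrFun h5 i

open scoped Classical in
/-- A span of vectors invariant under multiplication by an injective function is a coordinate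
subspace. -/
lemma coord_subspace {ι : Type*} [Fintype ι] (μ : ι → ℂ) (hμ : Function.Injective μ)
    (H : Fin d → ι → ℂ) (hli : LinearIndependent ℂ H) (I : Finset (Fin d))
    (hinv : ∀ i ∈ I, ∃ c : Fin d → ℂ, ∀ τ, H i τ * μ τ = ∑ j ∈ I, c j * H j τ) :
    (Finset.univ.filter fun τ => ∃ i ∈ I, H i τ ≠ 0).card = I.card := by
  set S := Finset.univ.filter fun τ => ∃ i ∈ I, H i τ ≠ 0 with hS
  set R := Submodule.span ℂ (Set.range fun i : I => H i.1) with hR
  have hmem : ∀ i ∈ I, H i ∈ R := fun i hi => Submodule.subset_span ⟨⟨i, hi⟩, rfl⟩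
  have hR1 : ∀ x ∈ R, (fun τ => μ τ * x τ) ∈ R := by
    intro x hx
    induction hx using Submodule.span_induction with
    | mem x hx =>
      obtain ⟨⟨i, hi⟩, rfl⟩ := hx
      obtain ⟨c, hc⟩ := hinv i hi
      have h1 : (fun τ => μ τ * H i τ) = ∑ j ∈ I, c j • H j := by
        funext τ
        rw [Finset.sum_apply, mul_comm, hc]
        rfl
      show (fun τ => μ τ * H i τ) ∈ R
      rw [h1]
      exact Submodule.sum_mem _ fun j hj => Submodule.smul_mem _ _ (hmem j hj)
    | zero =>
      have h1 : (fun τ => μ τ * (0 : ι → ℂ) τ) = 0 := by funext τ; simp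
      rw [h1]; exact R.zero_mem
    | add x y _ _ hx hy =>
      have h1 : (fun τ => μ τ * (x + y) τ) = (fun τ => μ τ * x τ) + (fun τ => μ τ * y τ) := by
        funext τ; simp [mul_add]
      rw [h1]; exact R.add_mem hx hy
    | smul a x _ hx =>
      have h1 : (fun τ => μ τ * (a • x) τ) = a • (fun τ => μ τ * x τ) := by
        funext τ; simp; ring
      rw [h1]; exact R.smul_mem _ hx
  have hR2 : ∀ (p : ℂ[X]), ∀ x ∈ R, (fun τ => p.eval (μ τ) * x τ) ∈ R := by
    intro p
    induction p using Polynomial.induction_on with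
    | C a =>
      intro x hx
      have h1 : (fun τ => (C a).eval (μ τ) * x τ) = a • x := by funext τ; simp
      rw [h1]; exact R.smul_mem _ hx
    | add p q hp hq =>
      intro x hx
      have h1 : (fun τ => (p + q).eval (μ τ) * x τ)
          = (fun τ => p.eval (μ τ) * x τ) + (fun τ => q.eval (μ τ) * x τ) := by
        funext τ; simp [add_mul]
      rw [h1]; exact R.add_mem (hp x hx) (hq x hx)
    | monomial n a hn =>
      intro x hx
      have h1 : (fun τ => (C a * X ^ (n + 1)).eval (μ τ) * x τ)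
          = (fun τ => (C a * X ^ n).eval (μ τ) * (fun τ => μ τ * x τ) τ) := by
        funext τ; simp [pow_succ]; ring
      rw [h1]; exact hn _ (hR1 x hx)
  have hR3 : ∀ τ ∈ S, (Pi.single τ (1 : ℂ) : ι → ℂ) ∈ R := by
    intro τ hτ
    obtain ⟨i, hi, hne⟩ := (Finset.mem_filter.1 hτ).2
    set p : ℂ[X] := ∏ σ ∈ Finset.univ.erase τ, (X - C (μ σ)) with hp
    have hp0 : p.eval (μ τ) ≠ 0 := by
      rw [hp, eval_prod, Finset.prod_ne_zero_iff]
      intro σ hσ
      rw [eval_sub, eval_X, eval_C, sub_ne_zero]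
      exact fun h => Finset.ne_of_mem_erase hσ (hμ h).symm
    have h1 := hR2 p _ (hmem i hi)
    have h2 : (Pi.single τ (1 : ℂ) : ι → ℂ)
        = (p.eval (μ τ) * H i τ)⁻¹ • (fun τ => p.eval (μ τ) * H i τ) := by
      funext σ
      by_cases hσ : σ = τ
      · subst hσ
        rw [Pi.single_eq_same, Pi.smul_apply, smul_eq_mul, inv_mul_cancel₀ (mul_ne_zero hp0 hne)]
      · have h3 : p.eval (μ σ) = 0 := by
          rw [hp, eval_prod]
          exact Finset.prod_eq_zero (Finset.mem_erase.2 ⟨hσ, Finset.mem_univ _⟩) (by simp)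
        rw [Pi.single_eq_of_ne hσ, Pi.smul_apply, h3, zero_mul, smul_zero]
    rw [h2]
    exact R.smul_mem _ h1
  set R' := Submodule.span ℂ (Set.range fun τ : S => (Pi.single τ.1 (1 : ℂ) : ι → ℂ)) with hR'
  have heq : R = R' := by
    apply le_antisymm
    · refine Submodule.span_le.2 ?_
      rintro _ ⟨⟨i, hi⟩, rfl⟩
      have h1 : H i = ∑ τ : ι, H i τ • (Pi.single τ (1 : ℂ) : ι → ℂ) := by
        funext σ
        rw [Finset.sum_apply, Finset.sum_eq_single σ]
        · simp
        · intro τ _ hτ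
          simp [Pi.single_eq_of_ne hτ.symm]
        · intro h
          exact absurd (Finset.mem_univ _) h
      show H i ∈ R'
      rw [h1]
      refine Submodule.sum_mem _ fun τ _ => ?_
      by_cases hτ : τ ∈ S
      · exact R'.smul_mem _ (Submodule.subset_span ⟨⟨τ, hτ⟩, rfl⟩)
      · have h2 : H i τ = 0 := by
          by_contra h
          exact hτ (Finset.mem_filter.2 ⟨Finset.mem_univ _, i, hi, h⟩)
        rw [h2, zero_smul]
        exact R'.zero_mem
    · refine Submodule.span_le.2 ?_
      rintro _ ⟨⟨τ, hτ⟩, rfl⟩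
      exact hR3 τ hτ
  have hliI : LinearIndependent ℂ (fun i : I => H i.1) :=
    hli.comp _ Subtype.val_injective
  have hliS : LinearIndependent ℂ (fun τ : S => (Pi.single τ.1 (1 : ℂ) : ι → ℂ)) := by
    have h1 := (Pi.basisFun ℂ ι).linearIndependent
    have h2 := h1.comp (fun τ : S => τ.1) Subtype.val_injective
    convert h2 using 1
    funext τ
    simp
  have h1 := finrank_span_eq_card hliI
  have h2 := finrank_span_eq_card hliS
  rw [← hR] at h1
  rw [← hR', ← heq, h1] at h2
  simpa using h2.symm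

end general

section matrix

variable {d : ℕ}

lemma vecMul_aeval {K : Type*} [Field K] [Algebra ℚ K] (θ : Matrix (Fin d) (Fin d) ℚ) (w : Fin d → K)
    (z : K) (hw : w ᵥ* (θ.map (algebraMap ℚ K)) = z • w) (p : ℚ[X]) :
    w ᵥ* ((aeval θ p).map (algebraMap ℚ K)) = (aeval z p) • w := by
  have hadd : ∀ M N : Matrix (Fin d) (Fin d) ℚ, (M + N).map (algebraMap ℚ K)
      = M.map (algebraMap ℚ K) + N.map (algebraMap ℚ K) := fun M N => by
    ext i j
    exact map_add (algebraMap ℚ K) _ _
  have hmul : ∀ M N : Matrix (Fin d) (Fin d) ℚ, (M * N).map (algebraMap ℚ K)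
      = M.map (algebraMap ℚ K) * N.map (algebraMap ℚ K) := fun M N => Matrix.map_mul
  have hscal : ∀ a : ℚ, w ᵥ* ((algebraMap ℚ (Matrix (Fin d) (Fin d) ℚ) a).map (algebraMap ℚ K))
      = (algebraMap ℚ K a) • w := by
    intro a
    funext k
    rw [Matrix.vecMul, dotProduct, Finset.sum_eq_single k]
    · rw [Matrix.map_apply, Matrix.algebraMap_matrix_apply, if_pos rfl]
      simp [mul_comm]
    · intro j _ hj
      rw [Matrix.map_apply, Matrix.algebraMap_matrix_apply, if_neg hj, map_zero, mul_zero]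
    · intro h
      exact absurd (Finset.mem_univ _) h
  induction p using Polynomial.induction_on with
  | C a => rw [aeval_C, aeval_C, hscal]
  | add p q hp hq => rw [map_add, hadd, Matrix.vecMul_add, hp, hq, map_add, add_smul]
  | monomial n a hn =>
    have h1 : (C a * X ^ (n + 1) : ℚ[X]) = (C a * X ^ n) * X := by ring
    rw [h1, map_mul (aeval θ) (C a * X ^ n), aeval_X, hmul, ← Matrix.vecMul_vecMul, hn,
      Matrix.smul_vecMul, hw, map_mul (aeval z) (C a * X ^ n), aeval_X, smul_smul]

lemma det_eq_zero_of_vecMul {K : Type*} [Field K] [Algebra ℚ K] (δ : Matrix (Fin d) (Fin d) ℚ)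
    (w : Fin d → K) (hw0 : w ≠ 0) (z : K) (hw : w ᵥ* (δ.map (algebraMap ℚ K)) = z • w) :
    aeval z δ.charpoly = 0 := by
  have h1 : (Matrix.scalar (Fin d) z - δ.map (algebraMap ℚ K)).det = 0 := by
    rw [← Matrix.exists_vecMul_eq_zero_iff]
    refine ⟨w, hw0, ?_⟩
    rw [Matrix.vecMul_sub, hw]
    funext j
    simp [Matrix.scalar_apply, mul_comm]
  rw [← Matrix.eval_charpoly] at h1
  have h2 : (δ.map (algebraMap ℚ K)).charpoly = δ.charpoly.map (algebraMap ℚ K) :=
    Matrix.charpoly_map _ _
  rw [h2, eval_map_algebraMap] at h1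
  exact h1

/-- **Construction of the data**, in an abstract number field. -/
theorem build_aux {K : Type} [Field K] [NumberField K] (z0 : K) (h : Matrix (Fin d) (Fin d) ℝ) (hh : h.det ≠ 0) (I : Finset (Fin d))
    (hI : I.Nonempty) (hI' : I ≠ Finset.univ) (θ : Matrix (Fin d) (Fin d) ℚ)
    (hinv : ∀ i ∈ I, ∃ c : Fin d → ℝ, ∀ k, ∑ j, h i j * (θ j k : ℝ) = ∑ j ∈ I, c j * h j k)
    (hcond : Nat.Coprime I.card d ∨ ∀ p : ℚ[X], (∃ q : ℚ, aeval θ p = q • 1) ∨
      Irreducible (aeval θ p).charpoly)
    (hd : 3 ≤ d) (hrank : Module.finrank ℚ K = d) (hz0 : aeval z0 θ.charpoly = 0)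
    (hsurj : ∀ z : K, ∃ p : ℚ[X], aeval z0 p = z) :
    ∃ D : SDat K d, D.h = h := by
  classical
  -- the eigenvector
  have hdet : (Matrix.scalar (Fin d) z0 - θ.map (algebraMap ℚ K)).det = 0 := by
    rw [← Matrix.eval_charpoly]
    have h2 : (θ.map (algebraMap ℚ K)).charpoly = θ.charpoly.map (algebraMap ℚ K) :=
      Matrix.charpoly_map _ _
    rw [h2, eval_map_algebraMap, hz0]
  obtain ⟨w, hw0, hw1⟩ := Matrix.exists_vecMul_eq_zero_iff.2 hdet
  have hw : w ᵥ* (θ.map (algebraMap ℚ K)) = z0 • w := by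
    rw [Matrix.vecMul_sub, sub_eq_zero] at hw1
    rw [← hw1]
    funext j
    simp [Matrix.scalar_apply, mul_comm]
  -- it is a basis
  have hspan : ⊤ ≤ Submodule.span ℚ (Set.range w) := by
    rw [← Fintype.range_linearCombination ℚ w]
    set Φ := Fintype.linearCombination ℚ w with hΦ
    have hstab : ∀ y ∈ LinearMap.range Φ, z0 * y ∈ LinearMap.range Φ := by
      rintro _ ⟨x, rfl⟩
      refine ⟨θ *ᵥ x, ?_⟩
      rw [hΦ, Fintype.linearCombination_apply, Fintype.linearCombination_apply, Finset.mul_sum]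
      have h1 : ∀ j, (θ *ᵥ x) j • w j = ∑ k, x k • (w j * algebraMap ℚ K (θ j k)) := by
        intro j
        rw [Matrix.mulVec, dotProduct, Finset.sum_smul]
        refine Finset.sum_congr rfl fun k _ => ?_
        simp only [Algebra.smul_def, map_mul]
        ring
      rw [Finset.sum_congr rfl fun j _ => h1 j, Finset.sum_comm]
      refine Finset.sum_congr rfl fun k _ => ?_
      rw [← Finset.smul_sum]
      have h2 := congrFun hw k
      rw [Matrix.vecMul, dotProduct] at h2
      simp only [Matrix.map_apply, Pi.smul_apply, smul_eq_mul] at h2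
      rw [h2, mul_smul_comm]
    have hstab2 : ∀ p : ℚ[X], ∀ y ∈ LinearMap.range Φ, aeval z0 p * y ∈ LinearMap.range Φ := by
      intro p
      induction p using Polynomial.induction_on with
      | C a =>
        intro y hy
        rw [aeval_C, ← Algebra.smul_def]
        exact Submodule.smul_mem _ _ hy
      | add p q hp hq =>
        intro y hy
        rw [map_add, add_mul]
        exact Submodule.add_mem _ (hp y hy) (hq y hy)
      | monomial n a hn =>
        intro y hy
        have h1 : (C a * X ^ (n + 1) : ℚ[X]) = (C a * X ^ n) * X := by ring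
        rw [h1, map_mul (aeval z0) (C a * X ^ n), aeval_X, mul_assoc]
        exact hn _ (hstab y hy)
    obtain ⟨k, hk⟩ : ∃ k, w k ≠ 0 := by
      by_contra hcon
      push Not at hcon
      exact hw0 (funext hcon)
    have hyk : w k ∈ LinearMap.range Φ := by
      refine ⟨Pi.single k 1, ?_⟩
      rw [hΦ, Fintype.linearCombination_apply_single, one_smul]
    intro z _
    obtain ⟨p, hp⟩ := hsurj (z / w k)
    have := hstab2 p _ hyk
    rwa [hp, div_mul_cancel₀ _ hk] at this
  let b : Module.Basis (Fin d) ℚ K :=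
    basisOfTopLeSpanOfCardEqFinrank w hspan (by rw [Fintype.card_fin, hrank])
  have hb : ∀ j, b j = w j := fun j => by simp [b]
  obtain ⟨N, hN, hNe, act⟩ := exists_pow_act (K := K) b
  choose H hH using fun i => embed_surj b (fun j => (h i j : ℂ))
  -- eigenvalues
  have heig : ∀ (τ : K →+* ℂ) (k : Fin d), ∑ j, τ (b j) * ((θ j k : ℚ) : ℂ) = τ z0 * τ (b k) := by
    intro τ k
    have h2 := congrFun hw k
    rw [Matrix.vecMul, dotProduct] at h2
    simp only [Matrix.map_apply, Pi.smul_apply, smul_eq_mul] at h2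
    have h3 := congrArg τ h2
    rw [map_sum, map_mul] at h3
    rw [hb, ← h3]
    refine Finset.sum_congr rfl fun j _ => ?_
    rw [map_mul, hb]
    congr 1
    rw [eq_ratCast, map_ratCast]
  have hμ : Function.Injective (fun τ : K →+* ℂ => τ z0) := by
    intro τ τ' hττ
    have h1 : ∀ z : K, τ z = τ' z := by
      intro z
      obtain ⟨p, rfl⟩ := hsurj z
      have h2 : ∀ σ : K →+* ℂ, σ (aeval z0 p) = aeval (σ z0) p := by
        intro σ
        exact (aeval_algHom_apply (σ.toRatAlgHom) z0 p).symm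
      rw [h2, h2]
      exact congrArg (fun t => aeval t p) hττ
    exact RingHom.ext h1
  have hrel : ∀ i ∈ I, ∃ c : Fin d → ℂ, ∀ τ : K →+* ℂ, H i τ * τ z0 = ∑ j ∈ I, c j * H j τ := by
    intro i hi
    obtain ⟨c, hc⟩ := hinv i hi
    refine ⟨fun j => (c j : ℂ), ?_⟩
    have h1 := embed_indep b (fun τ => H i τ * τ z0 - ∑ j ∈ I, (c j : ℂ) * H j τ) (by
      intro k
      have h2 : ∑ τ : K →+* ℂ, (H i τ * τ z0 - ∑ j ∈ I, (c j : ℂ) * H j τ) * τ (b k)
          = ∑ τ : K →+* ℂ, H i τ * (τ z0 * τ (b k))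
            - ∑ τ : K →+* ℂ, ∑ j ∈ I, (c j : ℂ) * (H j τ * τ (b k)) := by
        rw [← Finset.sum_sub_distrib]
        refine Finset.sum_congr rfl fun τ _ => ?_
        rw [sub_mul, Finset.sum_mul]
        congr 1
        · ring
        · exact Finset.sum_congr rfl fun j _ => by ring
      have h3 : ∑ τ : K →+* ℂ, ∑ j ∈ I, (c j : ℂ) * (H j τ * τ (b k))
          = ((∑ j ∈ I, c j * h j k : ℝ) : ℂ) := by
        rw [Finset.sum_comm]
        push_cast
        refine Finset.sum_congr rfl fun j _ => ?_
        rw [hH j k, Finset.mul_sum]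
      have h4 : ∑ τ : K →+* ℂ, H i τ * (τ z0 * τ (b k))
          = ((∑ j, h i j * (θ j k : ℝ) : ℝ) : ℂ) := by
        push_cast
        simp only [← heig, Finset.mul_sum]
        rw [Finset.sum_comm]
        refine Finset.sum_congr rfl fun j _ => ?_
        rw [hH i j, Finset.sum_mul]
        exact Finset.sum_congr rfl fun τ _ => by ring
      rw [h2, h3, h4, hc, sub_self])
    intro τ
    have := congrFun h1 τ
    exact sub_eq_zero.1 this
  set S : Finset (K →+* ℂ) := Finset.univ.filter fun τ => ∃ i ∈ I, H i τ ≠ 0 with hS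
  have hScard : S.card = I.card :=
    coord_subspace (fun τ : K →+* ℂ => τ z0) hμ H (H_indep b h hh H hH) I hrel
  have hIlt : I.card < d := by
    obtain ⟨x, hx⟩ : ∃ x, x ∉ I := by
      by_contra hcon
      push Not at hcon
      exact hI' (Finset.eq_univ_iff_forall.2 hcon)
    have h1 := Finset.card_lt_univ_of_notMem hx
    rwa [Fintype.card_fin] at h1
  refine ⟨{ b := b, N := N, hN := hN, hNe := hNe, act := act, h := h, hh := hh, H := H, hH := hH,
            I := I, S := S, hI := hI, hI' := hIlt, hIS := hScard.symm,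
            hSI := ?_, hSc := ?_, hsep := ?_ }, rfl⟩
  · intro i hi τ hτ
    by_contra hne
    exact hτ (Finset.mem_filter.2 ⟨Finset.mem_univ _, i, hi, hne⟩)
  · intro τ hτ
    obtain ⟨i, hi, hne⟩ := (Finset.mem_filter.1 hτ).2
    refine Finset.mem_filter.2 ⟨Finset.mem_univ _, i, hi, ?_⟩
    rw [Hconj b (h i) (H i) (hH i)]
    exact (_root_.map_ne_zero _).2 hne
  · intro τ τ' hne hτ hτ' z hz
    rcases hcond with hcop | hprim
    · exact sep_of_coprime S (by rw [hScard, hrank]; exact hcop) τ τ' hne z hz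
    · obtain ⟨p, rfl⟩ := hsurj z
      have hwp := vecMul_aeval θ w z0 hw p
      rcases hprim p with ⟨q, hq⟩ | hirr2
      · -- a rational number
        have h1 : aeval z0 p = algebraMap ℚ K q := by
          obtain ⟨k, hk⟩ : ∃ k, w k ≠ 0 := by
            by_contra hcon
            push Not at hcon
            exact hw0 (funext hcon)
          have h2 := congrFun hwp k
          rw [hq, Matrix.vecMul, dotProduct, Finset.sum_eq_single k] at h2
          · simp only [Matrix.map_apply, Matrix.smul_apply, Matrix.one_apply_eq, Pi.smul_apply,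
              smul_eq_mul, mul_one] at h2
            rw [mul_comm] at h2
            exact (mul_right_cancel₀ hk h2).symm
          · intro j _ hj
            simp [Matrix.one_apply_ne hj]
          · intro h
            exact absurd (Finset.mem_univ _) h
        obtain ⟨σ', hσ'⟩ : ∃ σ' : K →+* ℂ, σ' ∉ S := by
          by_contra hcon
          push Not at hcon
          have h3 : S = Finset.univ := Finset.eq_univ_iff_forall.2 hcon
          rw [h3, Finset.card_univ, NumberField.Embeddings.card K ℂ, hrank] at hScard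
          omega
        refine ⟨τ, hτ, σ', hσ', ?_⟩
        rw [h1]
        simp
      · -- a generator
        exfalso
        have h1 := det_eq_zero_of_vecMul (aeval θ p) w hw0 _ hwp
        have h2 : minpoly ℚ (aeval z0 p) = (aeval θ p).charpoly :=
          (minpoly.eq_of_irreducible_of_monic hirr2 h1 (Matrix.charpoly_monic _)).symm
        have h3 : Module.finrank ℚ (IntermediateField.adjoin ℚ {aeval z0 p}) = d := by
          rw [IntermediateField.adjoin.finrank (Algebra.IsIntegral.isIntegral _), h2,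
            Matrix.charpoly_natDegree_eq_dim, Fintype.card_fin]
        have h4 : IntermediateField.adjoin ℚ {aeval z0 p} = ⊤ := by
          rw [← IntermediateField.finrank_eq_one_iff_eq_top]
          have h5 := Module.finrank_mul_finrank ℚ (IntermediateField.adjoin ℚ {aeval z0 p}) K
          rw [h3, hrank] at h5
          exact Nat.eq_of_mul_eq_mul_left (by omega : 0 < d) (by rw [h5, mul_one])
        have h5 : IntermediateField.adjoin ℚ {aeval z0 p} ≤ eqF τ τ' := by
          rw [IntermediateField.adjoin_simple_le_iff]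
          exact hz
        apply hne
        apply RingHom.ext
        intro y
        have h6 : y ∈ IntermediateField.adjoin ℚ {aeval z0 p} := by rw [h4]; trivial
        exact h5 h6

/-- **Construction of the data.** -/
theorem build (hd : 3 ≤ d) (h : Matrix (Fin d) (Fin d) ℝ) (hh : h.det ≠ 0) (I : Finset (Fin d))
    (hI : I.Nonempty) (hI' : I ≠ Finset.univ) (θ : Matrix (Fin d) (Fin d) ℚ)
    (hirr : Irreducible θ.charpoly)
    (hinv : ∀ i ∈ I, ∃ c : Fin d → ℝ, ∀ k, ∑ j, h i j * (θ j k : ℝ) = ∑ j ∈ I, c j * h j k)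
    (hcond : Nat.Coprime I.card d ∨ ∀ p : ℚ[X], (∃ q : ℚ, aeval θ p = q • 1) ∨
      Irreducible (aeval θ p).charpoly) :
    ∃ (K : Type) (_ : Field K) (_ : NumberField K) (D : SDat K d), D.h = h := by
  classical
  have hfd : θ.charpoly.natDegree = d := by
    rw [Matrix.charpoly_natDegree_eq_dim, Fintype.card_fin]
  have hfact : Fact (Irreducible θ.charpoly) := ⟨hirr⟩
  let pb := AdjoinRoot.powerBasis hirr.ne_zero
  have hNF : NumberField (AdjoinRoot θ.charpoly) :=
    { to_charZero := charZero_of_injective_algebraMap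
        (algebraMap ℚ (AdjoinRoot θ.charpoly)).injective
      to_finiteDimensional := pb.finite }
  refine ⟨AdjoinRoot θ.charpoly, inferInstance, hNF, ?_⟩
  refine build_aux (AdjoinRoot.root θ.charpoly) h hh I hI hI' θ hinv hcond hd ?_ ?_ ?_
  · rw [pb.finrank, AdjoinRoot.powerBasis_dim, hfd]
  · have h6 := AdjoinRoot.aeval_eq (f := θ.charpoly) θ.charpoly
    rw [AdjoinRoot.mk_self] at h6
    exact h6
  · intro z
    obtain ⟨p, rfl⟩ := AdjoinRoot.mk_surjective z
    exact ⟨p, AdjoinRoot.aeval_eq p⟩

end matrix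

end Pool.Agent.TH223.E
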