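import Mathlib
import Pool.Agent.TH223.E.Build

/-! # Forms with a coordinate subspace invariant under a rational matrix -/

open Filter Topology Matrix Polynomial

namespace Pool.Agent.TH223.E

open H715R2

variable {d : ℕ}

/-- up to signs, a limit of diagonal matrices of determinant `±1` times `g` times unimodular
matrices is in the closure of the orbit -/
lemma exists_sign {g h : Matrix (Fin d) (Fin d) ℝ}
    (a : ℕ → Fin d → ℝ) (γ : ℕ → Matrix (Fin d) (Fin d) ℤ)
    (ha : ∀ n, |∏ i, a n i| = 1) (hγ : ∀ n, |(γ n).det| = 1)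
    (hlim : Tendsto (fun n => diagonal (a n) * g * (γ n).map (Int.cast : ℤ → ℝ)) atTop (𝓝 h)) :
    ∃ e : Fin d → ℝ, (∀ i, e i = 1 ∨ e i = -1) ∧ diagonal e * h ∈ closure (Orb g) := by
  classical
  -- a sign pattern occurring infinitely often
  have hane : ∀ n i, a n i ≠ 0 := by
    intro n i h0
    have h1 := ha n
    rw [Finset.prod_eq_zero (Finset.mem_univ i) h0, abs_zero] at h1
    exact zero_ne_one h1
  obtain ⟨p, hfreq⟩ : ∃ p : Fin d → Bool, ∃ᶠ n in atTop, (fun i => decide (0 < a n i)) = p := by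
    by_contra hcon
    rw [not_exists] at hcon
    have h1 : ∀ᶠ n in atTop, ∀ p : Fin d → Bool, ¬ ((fun i => decide (0 < a n i)) = p) :=
      Filter.eventually_all.2 fun p => not_frequently.1 (hcon p)
    obtain ⟨n, hn⟩ := h1.exists
    exact hn _ rfl
  obtain ⟨σ, hσ, hσ2⟩ := extraction_of_frequently_atTop hfreq
  set e : Fin d → ℝ := fun i => if p i then 1 else -1 with he
  have hea : ∀ n i, e i * a (σ n) i = |a (σ n) i| := by
    intro n i
    have h1 := congrFun (hσ2 n) i
    simp only [he]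
    by_cases h2 : 0 < a (σ n) i
    · rw [← h1, abs_of_pos h2]; simp [h2]
    · have h3 : a (σ n) i < 0 := lt_of_le_of_ne (not_lt.1 h2) (hane _ _)
      rw [← h1, abs_of_neg h3]; simp [h2]
  have hlim2 : Tendsto (fun n => diagonal (fun i => |a (σ n) i|) * g * zR (γ (σ n))) atTop
      (𝓝 (diagonal e * h)) := by
    have hcont : Continuous (fun M : Matrix (Fin d) (Fin d) ℝ => diagonal e * M) :=
      continuous_const.matrix_mul continuous_id
    have h1 := (hcont.tendsto h).comp (hlim.comp hσ.tendsto_atTop)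
    refine h1.congr fun n => ?_
    simp only [Function.comp_apply]
    rw [← Matrix.mul_assoc, ← Matrix.mul_assoc, diagonal_mul_diagonal]
    have h2 : (fun i => e i * a (σ n) i) = fun i => |a (σ n) i| := funext (hea n)
    rw [h2]
    rfl
  refine ⟨e, fun i => ?_, ?_⟩
  · simp only [he]
    split_ifs <;> simp
  · refine mem_closure_of_tendsto hlim2 (Eventually.of_forall fun n => ?_)
    refine ⟨fun i => |a (σ n) i|, γ (σ n), fun i => abs_pos.2 (hane _ _), ?_, ?_, rfl⟩
    · rw [← Finset.abs_prod]; exact ha _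
    · exact Int.isUnit_iff_abs_eq.2 (hγ _)

/-- **Invariant coordinate subspaces.** -/
theorem invariant_subspace (hd : 3 ≤ d) {g h : Matrix (Fin d) (Fin d) ℝ} (hg : g.det ≠ 0)
    (a : ℕ → Fin d → ℝ) (γ : ℕ → Matrix (Fin d) (Fin d) ℤ)
    (ha : ∀ n, |∏ i, a n i| = 1) (hγ : ∀ n, |(γ n).det| = 1)
    (hlim : Tendsto (fun n => diagonal (a n) * g * (γ n).map (Int.cast : ℤ → ℝ)) atTop (𝓝 h))
    (I : Finset (Fin d)) (hI : I.Nonempty) (hI' : I ≠ Finset.univ)
    (θ : Matrix (Fin d) (Fin d) ℚ) (hirr : Irreducible θ.charpoly)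
    (hinv : ∀ i ∈ I, ∃ c : Fin d → ℝ, ∀ k, ∑ j, h i j * (θ j k : ℝ) = ∑ j ∈ I, c j * h j k)
    (hcond : Nat.Coprime I.card d ∨ ∀ p : ℚ[X], (∃ q : ℚ, aeval θ p = q • 1) ∨
      Irreducible (aeval θ p).charpoly) :
    PropInt g ∨ ∀ ε : ℝ, 0 < ε → ∃ x : Fin d → ℤ, x ≠ 0 ∧ |FF g (iR x)| < ε := by
  classical
  by_cases hsmall : ∀ ε : ℝ, 0 < ε → ∃ x : Fin d → ℤ, x ≠ 0 ∧ |FF g (iR x)| < ε
  · exact Or.inr hsmall
  left
  push Not at hsmall
  obtain ⟨ν, hν, hnu⟩ := hsmall
  obtain ⟨e, he, hmem⟩ := exists_sign a γ ha hγ hlim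
  have he2 : ∀ i, e i * e i = 1 := by
    intro i
    rcases he i with h | h <;> rw [h] <;> norm_num
  have hdet : (diagonal e * h).det ≠ 0 := by
    intro h0
    have h1 := abs_det_closure hmem
    rw [h0, abs_zero] at h1
    exact hg (abs_eq_zero.1 h1.symm)
  obtain ⟨K, _, _, D, hD⟩ := build hd (diagonal e * h) hdet I hI hI' θ hirr (by
    intro i hi
    obtain ⟨c, hc⟩ := hinv i hi
    refine ⟨fun j => e i * (c j * e j), fun k => ?_⟩
    have h1 : ∑ j, (diagonal e * h) i j * (θ j k : ℝ) = e i * ∑ j, h i j * (θ j k : ℝ) := by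
      rw [Finset.mul_sum]
      refine Finset.sum_congr rfl fun j _ => ?_
      rw [diagonal_mul, mul_assoc]
    rw [h1, hc, Finset.mul_sum]
    refine Finset.sum_congr rfl fun j _ => ?_
    rw [diagonal_mul]
    linear_combination (-(e i * c j * h j k)) * he2 j) hcond
  exact D.main hd hg hν hnu (by rw [hD]; exact hmem)

end Pool.Agent.TH223.E
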